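import Pool.Agent.T9h24.Fu.Spec

/-!
# FU, piece (U2): choice of basis vectors

Author: helper67.
-/

set_option autoImplicit false

open Module

namespace Pool.Agent.T9h67.Fu

/-- replace one vector of an independent family by a vector outside the span of the others -/
theorem update_indep {K W : Type} [Field K] [AddCommGroup W] [Module K W] {N : ℕ}
    (ψ : Fin N → W) (hψ : LinearIndependent K ψ) (l0 : Fin N) (w : W)
    (hw : w ∉ Submodule.span K (ψ '' {l | l ≠ l0})) :
    LinearIndependent K (Function.update ψ l0 w) := by
  classical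
  rw [Fintype.linearIndependent_iff]
  intro g hg
  have hsum : g l0 • w + ∑ l ∈ Finset.univ.erase l0, g l • ψ l = 0 := by
    rw [← Finset.add_sum_erase _ _ (Finset.mem_univ l0)] at hg
    rw [Function.update_self] at hg
    rw [← hg]
    congr 1
    refine Finset.sum_congr rfl fun l hl => ?_
    rw [Function.update_of_ne (Finset.ne_of_mem_erase hl)]
  have h0 : g l0 = 0 := by
    by_contra h
    apply hw
    have h1 : w = -((g l0)⁻¹ • ∑ l ∈ Finset.univ.erase l0, g l • ψ l) := by
      have h2 : g l0 • w = -∑ l ∈ Finset.univ.erase l0, g l • ψ l := eq_neg_of_add_eq_zero_left hsum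
      have h3 : w = (g l0)⁻¹ • (g l0 • w) := by rw [smul_smul, inv_mul_cancel₀ h, one_smul]
      rw [h3, h2, smul_neg]
    rw [h1]
    refine Submodule.neg_mem _ (Submodule.smul_mem _ _ (Submodule.sum_mem _ fun l hl => ?_))
    exact Submodule.smul_mem _ _ (Submodule.subset_span ⟨l, Finset.ne_of_mem_erase hl, rfl⟩)
  have h1 : ∑ l, Function.update g l0 0 l • ψ l = 0 := by
    rw [← Finset.add_sum_erase _ _ (Finset.mem_univ l0), Function.update_self, zero_smul, zero_add]
    rw [h0, zero_smul, zero_add] at hsum
    rw [← hsum]
    refine Finset.sum_congr rfl fun l hl => ?_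
    rw [Function.update_of_ne (Finset.ne_of_mem_erase hl)]
  have h2 := Fintype.linearIndependent_iff.mp hψ _ h1
  intro l
  by_cases hl : l = l0
  · rw [hl, h0]
  · have := h2 l
    rwa [Function.update_of_ne hl] at this

theorem choice_aux (K V : Type) [Field K] [AddCommGroup V] [Module K V] (N : ℕ)
    (φ : Fin N → Module.Dual K V) (hφ : LinearIndependent K φ)
    (B : Fin N → Module.Basis (Fin N) K V) (S : Finset (Fin N)) :
    ∃ c : Fin N → Fin N, (∀ l ∈ S, φ l (B l (c l)) ≠ 0) ∧
      LinearIndependent K (fun l => if l ∈ S then (B l).coord (c l) else φ l) := by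
  classical
  induction S using Finset.induction_on with
  | empty => exact ⟨id, by simp, by simpa using hφ⟩
  | insert l0 S hl0 ih =>
    obtain ⟨c, hc, hI⟩ := ih
    set ψ : Fin N → Module.Dual K V := fun l => if l ∈ S then (B l).coord (c l) else φ l with hψ
    have h0 : ψ l0 = φ l0 := by rw [hψ]; simp [hl0]
    have h1 : ∃ a, φ l0 (B l0 a) ≠ 0 ∧
        (B l0).coord a ∉ Submodule.span K (ψ '' {l | l ≠ l0}) := by
      by_contra hcon
      push Not at hcon
      have h2 : φ l0 ∈ Submodule.span K (ψ '' {l | l ≠ l0}) := by
        rw [← (B l0).sum_dual_apply_smul_coord (φ l0)]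
        refine Submodule.sum_mem _ fun a _ => ?_
        by_cases ha : φ l0 (B l0 a) = 0
        · rw [ha, zero_smul]
          exact Submodule.zero_mem _
        · exact Submodule.smul_mem _ _ (hcon a ha)
      have h3 := hI.notMem_span_image (s := {l | l ≠ l0}) (x := l0) (by simp)
      rw [h0] at h3
      exact h3 h2
    obtain ⟨a, ha1, ha2⟩ := h1
    refine ⟨Function.update c l0 a, ?_, ?_⟩
    · intro l hl
      by_cases h : l = l0
      · rw [h, Function.update_self]
        exact ha1
      · rw [Function.update_of_ne h]
        exact hc l ((Finset.mem_insert.mp hl).resolve_left h)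
    · have h2 := update_indep ψ hI l0 _ ha2
      have h3 : (fun l => if l ∈ insert l0 S then (B l).coord (Function.update c l0 a l) else φ l) =
          Function.update ψ l0 ((B l0).coord a) := by
        funext l
        by_cases h : l = l0
        · subst h
          simp
        · rw [Function.update_of_ne h, Function.update_of_ne h, hψ]
          simp [h]
      rw [h3]
      exact h2

theorem stChoice : Pool.Agent.T9h24.Fu.StChoice := by
  intro K V _ _ _ _ N _ φ hφ B
  obtain ⟨c, hc, hI⟩ := choice_aux K V N φ hφ B Finset.univ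
  refine ⟨c, fun l => hc l (Finset.mem_univ l), ?_⟩
  simpa using hI

end Pool.Agent.T9h67.Fu
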